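import Pool.Agent.ABCP.Stmts

set_option autoImplicit false

/-!
# Squad ABCP, row STA: the main step
-/

namespace Pool.Agent.ABCP.H30

open Matrix
open Pool.Agent.ABC3 (St sdeg xc mu mu_def xc_comm xc_sq mu_comm mu_deg HasDeg HomV kr)

variable {p : ℕ} {K Q B : Type} [Field K] [AddCommGroup Q] [Module K Q] [Fintype B] [DecidableEq B]

theorem act_deg (S : Sys p K Q B) (q : Q) {d : ℤ} {v : B → K} (hv : HomV S.deg d v) :
    HomV S.deg (d + 1) ((S.act q).mulVec v) := by
  intro s hs
  simp only [Matrix.mulVec, dotProduct] at hs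
  obtain ⟨s', _, h⟩ := Finset.exists_ne_zero_of_sum_ne_zero hs
  have h1 : S.act q s s' ≠ 0 := fun h' => h (by rw [h', zero_mul])
  have h2 : v s' ≠ 0 := fun h' => h (by rw [h', mul_zero])
  rw [S.hdeg q s s' h1, hv s' h2]

theorem act_cd (S : Sys p K Q B) {e : Matrix B B K} (he : End0 S e) (q : Q) {d d' : ℤ}
    (hd : d' = d + 1) {v : B → K} (hv : v ∈ Cd S e d) : (S.act q).mulVec v ∈ Cd S e d' := by
  subst hd
  refine ⟨act_deg S q hv.1, ?_⟩
  rw [Matrix.mulVec_mulVec, ← he.2 q Submodule.mem_top, ← Matrix.mulVec_mulVec, hv.2]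

theorem act_pow_cd (S : Sys p K Q B) {e : Matrix B B K} (he : End0 S e) (q : Q) {d : ℤ}
    {v : B → K} (hv : v ∈ Cd S e d) (m : ℕ) :
    (S.act q ^ m).mulVec v ∈ Cd S e (d + m) := by
  induction m with
  | zero => simpa using hv
  | succ m ih =>
    rw [pow_succ', ← Matrix.mulVec_mulVec]
    exact act_cd S he q (by push_cast; ring) ih

theorem act_pc (S : Sys p K Q B) {e : Matrix B B K} (he : End0 S e) (q : Q)
    (P : Submodule K Q) {d d' : ℤ} (hd : d' = d + 1) {v : B → K} (hv : v ∈ PC S e P d) :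
    (S.act q).mulVec v ∈ PC S e P d' := by
  have h1 : PC S e P d ≤ (PC S e P d').comap (Matrix.mulVecLin (S.act q)) := by
    refine Submodule.span_le.2 ?_
    rintro _ ⟨x, hx, w, hw, rfl⟩
    refine Submodule.subset_span ⟨x, hx, (S.act q).mulVec w, act_cd S he q (by linarith) hw, ?_⟩
    rw [Matrix.mulVecLin_apply, Matrix.mulVec_mulVec, Matrix.mulVec_mulVec, S.comm]
  exact h1 hv

theorem pc_dec (S : Sys p K Q B) {e : Matrix B B K} (P : Submodule K Q) (h : Q) {D : ℤ}
    {z : B → K} (hz : z ∈ PC S e (P ⊔ Submodule.span K {h}) D) :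
    ∃ w ∈ Cd S e (D - 1), z - (S.act h).mulVec w ∈ PC S e P D := by
  unfold PC at hz
  induction hz using Submodule.span_induction with
  | mem z hz =>
    obtain ⟨x, hx, w, hw, rfl⟩ := hz
    obtain ⟨y, hy, y', hy', rfl⟩ := Submodule.mem_sup.1 hx
    obtain ⟨c, rfl⟩ := Submodule.mem_span_singleton.1 hy'
    refine ⟨c • w, Submodule.smul_mem _ _ hw, Submodule.subset_span ⟨y, hy, w, hw, ?_⟩⟩
    rw [map_add, map_smul, Matrix.add_mulVec, Matrix.smul_mulVec, Matrix.mulVec_smul,
      add_sub_cancel_right]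
  | zero => exact ⟨0, Submodule.zero_mem _, by simp⟩
  | add z z' _ _ ih ih' =>
    obtain ⟨w, hw, h1⟩ := ih
    obtain ⟨w', hw', h2⟩ := ih'
    refine ⟨w + w', Submodule.add_mem _ hw hw', ?_⟩
    rw [Matrix.mulVec_add, add_sub_add_comm]
    exact Submodule.add_mem _ h1 h2
  | smul c z _ ih =>
    obtain ⟨w, hw, h1⟩ := ih
    refine ⟨c • w, Submodule.smul_mem _ _ hw, ?_⟩
    rw [Matrix.mulVec_smul, ← smul_sub]
    exact Submodule.smul_mem _ _ h1

/-- the map induced by `q` -/
noncomputable def fq (S : Sys p K Q B) {e : Matrix B B K} (he : End0 S e) (P : Submodule K Q)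
    {j j' : ℤ} (hj : j' = j + 1) (q : Q) :
    (Cd S e j ⧸ (PC S e P j).comap (Cd S e j).subtype) →ₗ[K] ((B → K) ⧸ PC S e P j') :=
  Submodule.liftQ _ ((PC S e P j').mkQ.comp ((Matrix.mulVecLin (S.act q)).comp
    (Cd S e j).subtype)) (by
      intro v hv
      rw [LinearMap.mem_ker, LinearMap.comp_apply, Submodule.mkQ_apply,
        Submodule.Quotient.mk_eq_zero]
      exact act_pc S he q P hj hv)

theorem fq_mk (S : Sys p K Q B) {e : Matrix B B K} (he : End0 S e) (P : Submodule K Q)
    {j j' : ℤ} (hj : j' = j + 1) (q : Q) (v : Cd S e j) :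
    fq S he P hj q (Submodule.Quotient.mk v) =
      Submodule.Quotient.mk ((S.act q).mulVec (v : B → K)) := rfl

theorem fq_comb (S : Sys p K Q B) {e : Matrix B B K} (he : End0 S e) (P : Submodule K Q)
    {j j' : ℤ} (hj : j' = j + 1) (x y : Q) (a b : K) (v : Cd S e j) :
    (a • fq S he P hj x + b • fq S he P hj y) (Submodule.Quotient.mk v) =
      Submodule.Quotient.mk ((S.act (a • x + b • y)).mulVec (v : B → K)) := by
  rw [LinearMap.add_apply, LinearMap.smul_apply, LinearMap.smul_apply, fq_mk, fq_mk, map_add,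
    map_smul, map_smul, Matrix.add_mulVec, Matrix.smul_mulVec, Matrix.smul_mulVec]
  rfl

theorem sta (bze : BZEStmt) (inj : INJStmt) (pen : PENStmt) : STAStmt := by
  intro p _ K Q B _ _ _ _ _ _ _ _ S ι _ ev e a hee he hn lo st an u hu heu
  have hp1 : 1 < p := (Fact.out : p.Prime).one_lt
  have hpz : ((p - 1 : ℕ) : ℤ) = (p : ℤ) - 1 := by
    rw [Nat.cast_sub hp1.le, Nat.cast_one]
  -- coordinates
  set n : ℕ := Module.finrank K Q with hndef
  have bas : Module.Basis (Fin n) K Q := Module.finBasis K Q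
  set i0 : Fin n := ⟨0, by omega⟩ with hi0
  set i1 : Fin n := ⟨1, by omega⟩ with hi1
  have h01 : i0 ≠ i1 := by
    intro h
    have := congrArg Fin.val h
    simp [hi0, hi1] at this
  set π : Q →ₗ[K] K × K := (bas.coord i0).prod (bas.coord i1) with hπ
  set P : Submodule K Q := LinearMap.ker π with hP
  set x : Q := bas i0 with hx
  set y : Q := bas i1 with hy
  have hπx : π x = (1, 0) := by
    rw [hπ, hx]
    refine Prod.ext ?_ ?_
    · show bas.coord i0 (bas i0) = 1
      rw [Module.Basis.coord_apply, Module.Basis.repr_self, Finsupp.single_eq_same]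
    · show bas.coord i1 (bas i0) = 0
      rw [Module.Basis.coord_apply, Module.Basis.repr_self, Finsupp.single_eq_of_ne h01.symm]
  have hπy : π y = (0, 1) := by
    rw [hπ, hy]
    refine Prod.ext ?_ ?_
    · show bas.coord i0 (bas i1) = 0
      rw [Module.Basis.coord_apply, Module.Basis.repr_self, Finsupp.single_eq_of_ne h01]
    · show bas.coord i1 (bas i1) = 1
      rw [Module.Basis.coord_apply, Module.Basis.repr_self, Finsupp.single_eq_same]
  have hπc : ∀ α β : K, π (α • x + β • y) = (α, β) := by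
    intro α β
    rw [map_add, map_smul, map_smul, hπx, hπy]
    simp
  have hsurj : Function.Surjective π := fun c => ⟨c.1 • x + c.2 • y, hπc c.1 c.2⟩
  have hfP : Module.finrank K P + 2 = n := by
    have h1 : Module.finrank K (LinearMap.range π) + Module.finrank K P = n :=
      LinearMap.finrank_range_add_finrank_ker π
    rw [LinearMap.range_eq_top.2 hsurj, finrank_top, Module.finrank_prod, Module.finrank_self]
      at h1
    omega
  have hnP : ∀ α β : K, ¬ (α = 0 ∧ β = 0) → α • x + β • y ∉ P := by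
    intro α β h hm
    rw [hP, LinearMap.mem_ker, hπc] at hm
    exact h ⟨congrArg Prod.fst hm, congrArg Prod.snd hm⟩
  have hfH : ∀ h : Q, h ∉ P → Module.finrank K (P ⊔ Submodule.span K {h} : Submodule K Q) =
      Module.finrank K P + 1 := by
    intro h hh
    have h0 : h ≠ 0 := fun h' => hh (h' ▸ P.zero_mem)
    have h1 := Submodule.finrank_sup_add_finrank_inf_eq P (Submodule.span K {h})
    have h2 : P ⊓ Submodule.span K {h} = ⊥ :=
      disjoint_iff.1 ((Submodule.disjoint_span_singleton' h0).2 hh)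
    rw [h2, finrank_bot, finrank_span_singleton h0] at h1
    omega
  have hHt : ∀ h : Q, h ∉ P → P ⊔ Submodule.span K {h} ≠ ⊤ := by
    intro h hh ht
    have h1 := hfH h hh
    rw [ht, finrank_top] at h1
    omega
  -- the vector z
  have huC : u ∈ Cd S e a := ⟨hu, heu⟩
  set z : B → K := (S.act x ^ (p - 1)).mulVec u with hz
  have hzC : z ∈ Cd S e (a + (p - 1)) := by
    have h1 := act_pow_cd S he x huC (p - 1)
    rwa [hpz] at h1
  have hzA : ∀ h : Q, h ∉ P → AnnP S (P ⊔ Submodule.span K {h}) z := by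
    intro h hh l hl hlen
    have h1 := an u hu heu (l ++ List.replicate (p - 1) x) (fun _ _ => Submodule.mem_top) (by
      rw [List.length_append, List.length_replicate, hlen, hfH h hh, finrank_top]
      have h2 : Module.finrank K Q = Module.finrank K P + 1 + 1 := by omega
      rw [h2]
      ring)
    rw [List.map_append, List.prod_append, List.map_replicate, List.prod_replicate,
      ← Matrix.mulVec_mulVec] at h1
    exact h1
  have hzH : ∀ h : Q, h ∉ P → ∃ w ∈ Cd S e (a + (p - 1) - 1),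
      z - (S.act h).mulVec w ∈ PC S e P (a + (p - 1)) := by
    intro h hh
    have h1 := bze p K Q B S ι ev e (a + (p - 1)) hee he (st _ le_rfl)
      (P ⊔ Submodule.span K {h}) (hHt h hh) z hzC.1 hzC.2 (hzA h hh)
    exact pc_dec S P h h1
  -- pencils
  have hj : (a + ((p : ℤ) - 1)) = (a + ((p : ℤ) - 1) - 1) + 1 := by ring
  have hpen := pen K (Cd S e (a + (p - 1) - 1) ⧸
    (PC S e P (a + (p - 1) - 1)).comap (Cd S e (a + (p - 1) - 1)).subtype)
    ((B → K) ⧸ PC S e P (a + (p - 1))) (fq S he P hj x) (fq S he P hj y)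
    (Submodule.Quotient.mk z) ?_ ?_
  · have hzP : z ∈ PC S e P (a + (p - 1)) := (Submodule.Quotient.mk_eq_zero _).1 hpen
    have hxP : x ∉ P := by
      have h1 := hnP 1 0 (by simp)
      rwa [one_smul, zero_smul, add_zero] at h1
    have hfin := inj p K Q B S ι ev e a hee he lo st P x hxP (hHt x hxP) (p - 1) a u
      (by omega) (by rw [hpz]; linarith) huC (by rw [hpz]; exact hzP)
    -- PC in degree a is zero
    have h0 : PC S e P a ≤ ⊥ := by
      refine Submodule.span_le.2 ?_
      rintro _ ⟨x', _, w, hw, rfl⟩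
      have h1 := lo (a - 1) (by linarith) w hw.1 hw.2
      rw [h1, Matrix.mulVec_zero]
      exact Submodule.zero_mem _
    exact (Submodule.mem_bot K).1 (h0 hfin)
  · intro α β hab
    rw [← LinearMap.ker_eq_bot]
    refine (Submodule.eq_bot_iff _).2 fun v hv => ?_
    obtain ⟨v, rfl⟩ := Submodule.Quotient.mk_surjective _ v
    rw [LinearMap.mem_ker, fq_comb, Submodule.Quotient.mk_eq_zero] at hv
    rw [Submodule.Quotient.mk_eq_zero]
    have hh := hnP α β hab
    have h1 := inj p K Q B S ι ev e a hee he lo st P (α • x + β • y) hh (hHt _ hh) 1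
      (a + (p - 1) - 1) v le_rfl (by push_cast; linarith) v.2 (by
        rw [pow_one]
        have h2 : a + ((p : ℤ) - 1) - 1 + ((1 : ℕ) : ℤ) = a + (p - 1) := by push_cast; ring
        rw [h2]
        exact hv)
    exact h1
  · intro α β hab
    obtain ⟨w, hw, h1⟩ := hzH _ (hnP α β hab)
    refine ⟨Submodule.Quotient.mk ⟨w, hw⟩, ?_⟩
    rw [fq_comb]
    exact ((Submodule.Quotient.eq _).2 h1).symm

end Pool.Agent.ABCP.H30
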